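import Pool.Agent.Helper717.LT.One
import Pool.Agent.Helper717.LT.P_final_thm

set_option autoImplicit false

open MeasureTheory

namespace Pool.Agent.Results.MP_cfe56d_mp.AllDimensions

/-- The partial derivative `∂_k φ` of a function on `ℝ^d`. -/
noncomputable def pder {d : ℕ} (k : Fin d) (φ : (Fin d → ℝ) → ℝ) (x : Fin d → ℝ) : ℝ :=
  fderiv ℝ φ x (Pi.single k 1)

/-- `u` belongs to the Sobolev space `H¹(ℝ^d; ℂ)` and has the weak partial derivatives `g k`: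
`u` and all `g k` are in `L²(ℝ^d)`, and `∫ u ∂_k φ = - ∫ g_k φ` for every real test function
`φ ∈ C_c^∞(ℝ^d)`. -/
structure IsSobolev {d : ℕ} (u : (Fin d → ℝ) → ℂ) (g : Fin d → (Fin d → ℝ) → ℂ) : Prop where
  memLp : MemLp u 2 volume
  memLp_deriv : ∀ k, MemLp (g k) 2 volume
  weak : ∀ k (φ : (Fin d → ℝ) → ℝ), ContDiff ℝ (⊤ : ℕ∞) φ → HasCompactSupport φ →
    ∫ x, u x * (pder k φ x : ℂ) = - ∫ x, g k x * (φ x : ℂ)

/-- The constants `K` admissible in the kinetic energy inequality in dimension `d`: for all `N`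
and all `L²`-orthonormal `u_1, …, u_N ∈ H¹(ℝ^d; ℂ)` the function `ρ ^ (1 + 2 / d)`,
`ρ = ∑ |u_n|²`, is integrable and `K ∫ ρ ^ (1 + 2 / d) ≤ ∑ ∫ |∇ u_n|²`. -/
def AdmissibleSystem (d : ℕ) (K : ℝ) : Prop :=
  ∀ (N : ℕ) (u : Fin N → (Fin d → ℝ) → ℂ) (g : Fin N → Fin d → (Fin d → ℝ) → ℂ),
    (∀ n, IsSobolev (u n) (g n)) →
    (∀ n m, ∫ x, (starRingEnd ℂ) (u n x) * u m x = if n = m then 1 else 0) →
    Integrable (fun x => (∑ n, ‖u n x‖ ^ 2) ^ (1 + 2 / (d : ℝ))) ∧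
    K * ∫ x, (∑ n, ‖u n x‖ ^ 2) ^ (1 + 2 / (d : ℝ)) ≤ ∑ n, ∑ k, ∫ x, ‖g n k x‖ ^ 2

/-- The constants `K` admissible in the one-particle inequality in dimension `d`. -/
def AdmissibleOne (d : ℕ) (K : ℝ) : Prop :=
  ∀ (u : (Fin d → ℝ) → ℂ) (g : Fin d → (Fin d → ℝ) → ℂ), IsSobolev u g →
    K * ((∫ x, ‖u x‖ ^ (2 + 4 / (d : ℝ))) * (∫ x, ‖u x‖ ^ 2) ^ (-(2 / (d : ℝ)))) ≤
      ∑ k, ∫ x, ‖g k x‖ ^ 2

/-- The semiclassical constant `d / (d + 2) * (2π)² / ω_d ^ (2 / d)`. -/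
noncomputable def Kcl (d : ℕ) : ℝ :=
  d / (d + 2) * ((2 * Real.pi) ^ 2 /
    (volume (Metric.ball (0 : EuclideanSpace ℝ (Fin d)) 1)).toReal ^ ((2 : ℝ) / d))

/-- In every dimension `d ≥ 1` the sharp constant `K_d` of the kinetic energy inequality for
orthonormal systems satisfies `K_d ≥ (3/4) ^ (1/d) K_d^cl`. In dimension one this bound is
attained: `K_1 = min (K_1^(1)) (K_1^cl) = (3/4) K_1^cl = π² / 4`. -/
theorem result :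
    (∀ d : ℕ, 1 ≤ d → AdmissibleSystem d ((3 / 4) ^ (1 / (d : ℝ)) * Kcl d)) ∧
    ∃ K₁ K₁one : ℝ, IsGreatest {K | AdmissibleSystem 1 K} K₁ ∧
      IsGreatest {K | AdmissibleOne 1 K} K₁one ∧ K₁ = min K₁one (Kcl 1) ∧
      K₁ = 3 / 4 * Kcl 1 ∧ K₁ = Real.pi ^ 2 / 4 := by
  have hS : ∀ {d : ℕ} {u : (Fin d → ℝ) → ℂ} {g : Fin d → (Fin d → ℝ) → ℂ},
      IsSobolev u g ↔ LTd.WGradC u g := fun {d u g} =>
    ⟨fun h => ⟨h.1, h.2, h.3⟩, fun h => ⟨h.1, h.2, h.3⟩⟩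
  have hAS : ∀ {d : ℕ} {K : ℝ}, AdmissibleSystem d K ↔ LTd.Admissible d K := fun {d K} =>
    ⟨fun h N u g hu => h N u g fun n => hS.2 (hu n), fun h N u g hu => h N u g fun n => hS.1 (hu n)⟩
  have hAO : ∀ {d : ℕ} {K : ℝ}, AdmissibleOne d K ↔ LTd.AdmissibleOne d K := fun {d K} =>
    ⟨fun h u g hu => h u g (hS.2 hu), fun h u g hu => h u g (hS.1 hu)⟩
  have hKcl : ∀ d, Kcl d = LTd.Kcl d := fun _ => rfl
  have hall : ∀ d : ℕ, 1 ≤ d → AdmissibleSystem d ((3 / 4) ^ (1 / (d : ℝ)) * Kcl d) := by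
    intro d hd N u g hu ho
    exact LTd.final_thm d hd N u g (fun i => hS.1 (hu i)) ho
  have hK1 : Kcl 1 = Real.pi ^ 2 / 3 := LTd.Kcl_one
  have hsharp : AdmissibleSystem 1 (Real.pi ^ 2 / 4) := by
    have h := hall 1 le_rfl
    have e : (3 / 4 : ℝ) ^ (1 / ((1 : ℕ) : ℝ)) * Kcl 1 = Real.pi ^ 2 / 4 := by
      rw [hK1]
      have : (1 / ((1 : ℕ) : ℝ)) = 1 := by norm_num
      rw [this, Real.rpow_one]
      ring
    rwa [e] at h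
  have hone : ∀ {K : ℝ}, AdmissibleSystem 1 K → AdmissibleOne 1 K := fun {K} h =>
    hAO.2 (LTd.Admissible_one le_rfl (hAS.1 h))
  refine ⟨hall, Real.pi ^ 2 / 4, Real.pi ^ 2 / 4, ⟨hsharp, ?_⟩, ⟨hone hsharp, ?_⟩, ?_, ?_, rfl⟩
  · intro K hK
    exact LTd.AdmissibleOne_le (hAO.1 (hone hK))
  · intro K hK
    exact LTd.AdmissibleOne_le (hAO.1 hK)
  · rw [hK1, min_eq_left]
    nlinarith [sq_nonneg Real.pi]
  · rw [hK1]
    ring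

end Pool.Agent.Results.MP_cfe56d_mp.AllDimensions
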