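import Pool.Agent.Helper490.LTH1C

set_option autoImplicit false

open MeasureTheory Set

namespace Pool.Agent.Results.MP_cfe56d_mp.ExactOneDim

/-- `u` is the continuous representative of a function of the Sobolev space `H¹(ℝ)` with weak
derivative `g`. -/
structure IsSobolev (u g : ℝ → ℂ) : Prop where
  memLp : MemLp u 2
  memLp_deriv : MemLp g 2
  integral_deriv : ∀ a b, u b - u a = ∫ x in a..b, g x

/-- The constants `K` admissible in the kinetic inequality for all orthonormal families. -/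
def AdmissibleSystem (K : ℝ) : Prop :=
  ∀ (N : ℕ) (u g : Fin N → ℝ → ℂ), (∀ n, IsSobolev (u n) (g n)) →
    (∀ n m, ∫ x, star (u n x) * u m x = if n = m then (1 : ℂ) else 0) →
    K * ∫ x, (∑ n, ‖u n x‖ ^ 2) ^ 3 ≤ ∑ n, ∫ x, ‖g n x‖ ^ 2

/-- The constants `K` admissible in the one-particle inequality. -/
def AdmissibleOne (K : ℝ) : Prop :=
  ∀ u g : ℝ → ℂ, IsSobolev u g →
    K * ((∫ x, ‖u x‖ ^ 6) / (∫ x, ‖u x‖ ^ 2) ^ 2) ≤ ∫ x, ‖g x‖ ^ 2

/-- The semiclassical constant `d / (d + 2) * (2π)² / ω_d ^ (2 / d)` for `d = 1`. -/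
noncomputable def Kcl : ℝ :=
  1 / (1 + 2) * (2 * Real.pi) ^ 2 / (volume (Metric.ball (0 : ℝ) 1)).toReal ^ 2

/-- The optimiser of the one-particle inequality, as a complex function. -/
noncomputable def W (x : ℝ) : ℂ := (Pool.Helper490.Sech.w x : ℂ)

/-- Its derivative. -/
noncomputable def W' (x : ℝ) : ℂ := (Pool.Helper490.Sech.w' x : ℂ)

lemma norm_W (x : ℝ) : ‖W x‖ ^ 2 = Pool.Helper490.Sech.w x ^ 2 := by
  rw [W, Complex.norm_real, Real.norm_eq_abs, sq_abs]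

lemma norm_W' (x : ℝ) : ‖W' x‖ ^ 2 = Pool.Helper490.Sech.w' x ^ 2 := by
  rw [W', Complex.norm_real, Real.norm_eq_abs, sq_abs]

lemma W_sobolev (c : ℝ) : IsSobolev (fun x => c * W x) (fun x => c * W' x) := by
  have hc1 : Continuous fun x => (c : ℂ) * W x :=
    continuous_const.mul (Complex.continuous_ofReal.comp Pool.Helper490.Sech.w_cont)
  have hc2 : Continuous fun x => (c : ℂ) * W' x :=
    continuous_const.mul (Complex.continuous_ofReal.comp Pool.Helper490.Sech.w'_cont)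
  refine ⟨?_, ?_, ?_⟩
  · rw [memLp_two_iff_integrable_sq_norm hc1.aestronglyMeasurable]
    simp only [norm_mul, mul_pow, norm_W]
    exact Pool.Helper490.Sech.int_w_sq.const_mul _
  · rw [memLp_two_iff_integrable_sq_norm hc2.aestronglyMeasurable]
    simp only [norm_mul, mul_pow, norm_W']
    exact Pool.Helper490.Sech.int_w'_sq.const_mul _
  · intro a b
    rw [intervalIntegral.integral_eq_sub_of_hasDerivAt (f := fun x => (c : ℂ) * W x)]
    · intro x _
      exact ((Pool.Helper490.Sech.w_deriv x).ofReal_comp).const_mul _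
    · exact hc2.intervalIntegrable _ _

lemma AdmissibleOne_le {K : ℝ} (h : AdmissibleOne K) : K ≤ Real.pi ^ 2 / 4 := by
  have h1 := h _ _ (W_sobolev 1)
  have e6 : ∀ x, ‖((1 : ℝ) : ℂ) * W x‖ ^ 6 = (Pool.Helper490.Sech.w x ^ 2) ^ 3 := by
    intro x
    rw [Complex.ofReal_one, one_mul, ← norm_W]; ring
  have e2 : ∀ x, ‖((1 : ℝ) : ℂ) * W x‖ ^ 2 = Pool.Helper490.Sech.w x ^ 2 := by
    intro x
    rw [Complex.ofReal_one, one_mul, ← norm_W]
  have e1 : ∀ x, ‖((1 : ℝ) : ℂ) * W' x‖ ^ 2 = Pool.Helper490.Sech.w' x ^ 2 := by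
    intro x
    rw [Complex.ofReal_one, one_mul, ← norm_W']
  simp only [e6, e2, e1, Pool.Helper490.Sech.integral_w_six, Pool.Helper490.Sech.integral_w_sq,
    Pool.Helper490.Sech.integral_w'_sq] at h1
  have hpi := Real.pi_pos
  have h2 : K * (Real.pi / 2 / Real.pi ^ 2) = K / (2 * Real.pi) := by field_simp
  rw [h2, div_le_iff₀ (by positivity)] at h1
  calc K ≤ Real.pi / 8 * (2 * Real.pi) := h1
    _ = Real.pi ^ 2 / 4 := by ring

lemma AdmissibleSystem_one {K : ℝ} (h : AdmissibleSystem K) (u g : ℝ → ℂ) (hu : IsSobolev u g) :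
    K * ((∫ x, ‖u x‖ ^ 6) / (∫ x, ‖u x‖ ^ 2) ^ 2) ≤ ∫ x, ‖g x‖ ^ 2 := by
  set m : ℝ := ∫ x, ‖u x‖ ^ 2 with hm
  have hm0 : 0 ≤ m := integral_nonneg fun x => sq_nonneg _
  have hg0 : 0 ≤ ∫ x, ‖g x‖ ^ 2 := integral_nonneg fun x => sq_nonneg _
  rcases hm0.eq_or_lt with h0 | hpos
  · rw [← h0]
    simpa using hg0
  set c : ℝ := (√m)⁻¹ with hc
  have hsm : 0 < √m := Real.sqrt_pos.2 hpos
  have hc2 : c ^ 2 = m⁻¹ := by rw [hc, inv_pow, Real.sq_sqrt hm0]
  have hcn : ∀ z : ℂ, ‖(c : ℂ) * z‖ ^ 2 = m⁻¹ * ‖z‖ ^ 2 := by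
    intro z
    rw [norm_mul, mul_pow, Complex.norm_real, Real.norm_eq_abs, sq_abs, hc2]
  have hs : IsSobolev (fun x => (c : ℂ) * u x) (fun x => (c : ℂ) * g x) := by
    refine ⟨hu.memLp.const_mul _, hu.memLp_deriv.const_mul _, fun a b => ?_⟩
    rw [intervalIntegral.integral_const_mul, ← hu.integral_deriv]
    ring
  have h1 := h 1 (fun _ x => (c : ℂ) * u x) (fun _ x => (c : ℂ) * g x) (fun _ => hs) (by
    intro n m'
    rw [if_pos (Subsingleton.elim n m')]
    have e : ∀ x, star ((c : ℂ) * u x) * ((c : ℂ) * u x) = ((m⁻¹ * ‖u x‖ ^ 2 : ℝ) : ℂ) := by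
      intro x
      rw [← hcn, ← Complex.normSq_eq_norm_sq, mul_comm]
      exact Complex.mul_conj _
    simp only [e]
    rw [integral_complex_ofReal, integral_const_mul, ← hm, inv_mul_cancel₀ hpos.ne']
    simp)
  simp only [Finset.univ_unique, Finset.sum_singleton, hcn] at h1
  rw [integral_const_mul] at h1
  have e6 : ∀ x, (m⁻¹ * ‖u x‖ ^ 2) ^ 3 = m⁻¹ ^ 3 * ‖u x‖ ^ 6 := fun x => by ring
  simp only [e6] at h1
  rw [integral_const_mul] at h1
  have h2 := mul_le_mul_of_nonneg_left h1 hm0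
  have e7 : m * (K * (m⁻¹ ^ 3 * ∫ x, ‖u x‖ ^ 6)) = K * ((∫ x, ‖u x‖ ^ 6) / m ^ 2) := by
    field_simp
  have e8 : m * (m⁻¹ * ∫ x, ‖g x‖ ^ 2) = ∫ x, ‖g x‖ ^ 2 := by
    field_simp
  rw [e7, e8] at h2
  exact h2

lemma AdmissibleSystem_sharp : AdmissibleSystem (Real.pi ^ 2 / 4) := fun _ u g hs ho =>
  (Pool.Helper490.Calib.sharp_H1_complex u g (fun n => (hs n).memLp)
    (fun n => (hs n).memLp_deriv) (fun n => (hs n).integral_deriv) ho).2

lemma Kcl_eq : Kcl = Real.pi ^ 2 / 3 := by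
  rw [Kcl, Real.volume_ball]
  have : (ENNReal.ofReal (2 * 1)).toReal = 2 := by
    rw [ENNReal.toReal_ofReal (by norm_num)]; norm_num
  rw [this]
  ring

/-- In dimension one the optimal constant for orthonormal families is the smaller one of the
one-particle constant and the semiclassical constant; its value is `π² / 4`. -/
theorem result : ∃ K₁ K₁one : ℝ, IsGreatest {K | AdmissibleSystem K} K₁ ∧
    IsGreatest {K | AdmissibleOne K} K₁one ∧ K₁ = min K₁one Kcl ∧ K₁ = Real.pi ^ 2 / 4 := by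
  have hone : AdmissibleOne (Real.pi ^ 2 / 4) := fun u g hu =>
    AdmissibleSystem_one AdmissibleSystem_sharp u g hu
  refine ⟨Real.pi ^ 2 / 4, Real.pi ^ 2 / 4, ⟨AdmissibleSystem_sharp, ?_⟩,
    ⟨hone, fun K hK => AdmissibleOne_le hK⟩, ?_, rfl⟩
  · intro K hK
    exact AdmissibleOne_le fun u g hu => AdmissibleSystem_one hK u g hu
  · rw [Kcl_eq, min_eq_left]
    have := Real.pi_pos
    nlinarith [sq_nonneg Real.pi]

end Pool.Agent.Results.MP_cfe56d_mp.ExactOneDim
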