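import Pool.Agent.Helper490.CalibComplex

set_option autoImplicit false

open MeasureTheory

namespace Pool.Agent.Results.MP_cfe56d_mp.SharpOneDim

/-- The sharp kinetic inequality in dimension one, for every number of functions. -/
theorem result (N : ℕ) (u : Fin N → ℝ → ℂ) (hu : ∀ n, ContDiff ℝ 1 (u n))
    (h2 : ∀ n, Integrable (fun x => ‖u n x‖ ^ 2))
    (h2' : ∀ n, Integrable (fun x => ‖deriv (u n) x‖ ^ 2))
    (ho : ∀ n m, ∫ x, star (u n x) * u m x = if n = m then (1 : ℂ) else 0) :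
    Real.pi ^ 2 / 4 * ∫ x, (∑ n, ‖u n x‖ ^ 2) ^ 3 ≤ ∑ n, ∫ x, ‖deriv (u n) x‖ ^ 2 :=
  Pool.Helper490.Calib.sharp_complex u (fun n => deriv (u n))
    (fun n x => ((hu n).differentiable (by norm_num) x).hasDerivAt)
    (fun n => (hu n).continuous_deriv (by norm_num)) h2 h2' ho

end Pool.Agent.Results.MP_cfe56d_mp.SharpOneDim
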